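import Pool.Agent.U251.Mob120.Main

open R179.Mob

namespace Pool.Agent.Results.MP_dcc731_co.Moebius120Cell

/-- **The 120-cell `{5,3,3}` is Möbius unique, and so is every edge-scribable 4-polytope.**

If `v` and `w` are the vertex families of two edge-scribed convex 4-polytopes (of any combinatorial
type whatsoever, in particular of type `{5,3,3}`) whose face lattices are isomorphic through `e`,
then some Möbius transformation of the extended 3-space maps the ball-arrangement projection of the
first onto that of the second; it can be chosen to respect the given isomorphism `e`. -/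
theorem result {ι κ : Type} [Fintype ι] [DecidableEq ι] [Fintype κ] [DecidableEq κ]
    (v : ι → E4) (w : κ → E4) (hv : IsPolytope v) (hw : IsPolytope w)
    (hvs : EdgeScribed v) (hws : EdgeScribed w) (e : ι ≃ κ)
    (he : ∀ F : Finset ι, IsFace v F ↔ IsFace w (F.map e.toEmbedding)) :
    ∃ μ, IsMoebius μ ∧ (∀ i, μ '' ball (v i) = ball (w (e i))) ∧
      (fun b => μ '' b) '' Set.range (fun i => ball (v i)) = Set.range (fun k => ball (w k)) :=
  Pool.Agent.U251.Mob120.unique_all hv hw hvs hws e he

end Pool.Agent.Results.MP_dcc731_co.Moebius120Cell
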